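import Mathlib

set_option autoImplicit false

/-! Rényi entropies of the empirical measures of a branching random walk. -/

namespace Pool.Agent.Results.MP_96db20_pr.RenyiFails

open MeasureTheory ProbabilityTheory Filter Topology
open scoped ENNReal Pointwise

noncomputable section

attribute [local instance] Classical.propDecidable

/-! ### Definitions -/

/-- Generation `n` of the tree in which the vertex `v` has the children `i :: v`, `i < N v`. -/
def gen (N : List ℕ → ℕ) : ℕ → Finset (List ℕ)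
  | 0 => {[]}
  | n + 1 => (gen N n).biUnion fun v => (Finset.range (N v)).image fun i => i :: v

/-- The position of a vertex: the product of the steps along the path from the root. -/
def pos {G : Type*} [Group G] (ζ : List ℕ → G) : List ℕ → G
  | [] => 1
  | i :: v => pos ζ v * ζ (i :: v)

/-- The empirical distribution of generation `n`. -/
def empirical {G : Type*} [Group G] (N : List ℕ → ℕ) (ζ : List ℕ → G) (n : ℕ) (x : G) : ℝ :=
  ((gen N n).filter fun v => pos ζ v = x).card / (gen N n).card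

/-- The Rényi entropy of order `α ≠ 1` of a mass function. -/
def renyi {G : Type*} (α : ℝ) (ν : G → ℝ) : ℝ :=
  (1 - α)⁻¹ * Real.log (∑' g, if 0 < ν g then ν g ^ α else 0)

/-- Convolution powers of `μ`. -/
def convPow {G : Type*} [Group G] (μ : PMF G) : ℕ → PMF G
  | 0 => PMF.pure 1
  | n + 1 => (convPow μ n).bind fun x => μ.map fun s => x * s

/-- Independent steps with law `μ` and, independent of them, independent offspring numbers with
law `π`. -/
structure IsBRW {G Ω : Type*} [MeasurableSpace Ω] (μ : PMF G) (π : PMF ℕ) (P : Measure Ω)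
    (N : List ℕ → Ω → ℕ) (ζ : List ℕ → Ω → G) : Prop where
  meas : ∀ v, Measurable[_, ⊤] fun ω => (N v ω, ζ v ω)
  law : ∀ v a g, P {ω | N v ω = a ∧ ζ v ω = g} = π a * μ g
  indep : iIndepFun (m := fun _ => ⊤) (fun v ω => (N v ω, ζ v ω)) P

/-- The step of the lazy walk coded by `t`: stay with probability `3/4`, otherwise multiply by one
of the `2 k` elements `of i`, `(of i)⁻¹`, each with the same probability. -/
def code (k : ℕ) (t : Fin 4 × Fin k × Bool) : FreeGroup (Fin k) :=
  if t.1 = 0 then (if t.2.2 then FreeGroup.of t.2.1 else (FreeGroup.of t.2.1)⁻¹) else 1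

/-- The step distribution of the lazy simple random walk on the free group of rank `k`: the law of
`code k t` for uniform `t`. -/
def lazySRW (k : ℕ) [NeZero k] : PMF (FreeGroup (Fin k)) :=
  (PMF.uniformOfFintype (Fin 4 × Fin k × Bool)).map (code k)

/-! ### The group -/

/-- the identity and the generators -/
def S (k : ℕ) : Finset (FreeGroup (Fin k)) :=
  insert 1 (Finset.univ.image fun p : Fin k × Bool =>
    if p.2 then FreeGroup.of p.1 else (FreeGroup.of p.1)⁻¹)

theorem one_mem_S (k : ℕ) : (1 : FreeGroup (Fin k)) ∈ S k := Finset.mem_insert_self _ _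

theorem card_S (k : ℕ) : (S k).card ≤ 2 * k + 1 := by
  refine (Finset.card_insert_le _ _).trans ?_
  have := (Finset.card_image_le (s := (Finset.univ : Finset (Fin k × Bool)))
    (f := fun p : Fin k × Bool => if p.2 then FreeGroup.of p.1 else (FreeGroup.of p.1)⁻¹))
  rw [Finset.card_univ, Fintype.card_prod, Fintype.card_fin, Fintype.card_bool] at this
  omega

theorem code_mem_S (k : ℕ) (t : Fin 4 × Fin k × Bool) : code k t ∈ S k := by
  unfold code S
  split_ifs with h1 h2
  · exact Finset.mem_insert_of_mem (Finset.mem_image.2 ⟨t.2, Finset.mem_univ _, by simp [h2]⟩)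
  · exact Finset.mem_insert_of_mem (Finset.mem_image.2 ⟨t.2, Finset.mem_univ _, by simp [h2]⟩)
  · exact Finset.mem_insert_self _ _

section Walk

variable (k : ℕ) [NeZero k]

theorem lazy_eq_zero {g : FreeGroup (Fin k)} (hg : g ∉ S k) : lazySRW k g = 0 := by
  by_contra h
  have h' := (PMF.mem_support_iff _ _).2 h
  rw [lazySRW, PMF.support_map] at h'
  obtain ⟨t, -, rfl⟩ := h'
  exact hg (code_mem_S k t)

omit [NeZero k] in
theorem card_index : Fintype.card (Fin 4 × Fin k × Bool) = 8 * k := by
  simp only [Fintype.card_prod, Fintype.card_fin, Fintype.card_bool]; ring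

theorem lazy_apply (g : FreeGroup (Fin k)) :
    lazySRW k g = (Finset.univ.filter fun t => code k t = g).card * ((8 * k : ℕ) : ℝ≥0∞)⁻¹ := by
  rw [lazySRW, PMF.map_apply, tsum_fintype]
  simp only [PMF.uniformOfFintype_apply, card_index]
  rw [Finset.sum_ite, Finset.sum_const_zero, add_zero, Finset.sum_const, nsmul_eq_mul]
  congr 3
  ext t
  simp [eq_comm]

theorem lazy_of (i : Fin k) : ((8 * k : ℕ) : ℝ≥0∞)⁻¹ ≤ lazySRW k (FreeGroup.of i) := by
  rw [lazy_apply]
  have h : 1 ≤ (Finset.univ.filter fun t => code k t = FreeGroup.of i).card := by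
    rw [Nat.one_le_iff_ne_zero, Finset.card_ne_zero]
    exact ⟨(0, i, true), Finset.mem_filter.2 ⟨Finset.mem_univ _, by simp [code]⟩⟩
  calc ((8 * k : ℕ) : ℝ≥0∞)⁻¹ = ((1 : ℕ) : ℝ≥0∞) * ((8 * k : ℕ) : ℝ≥0∞)⁻¹ := by simp
    _ ≤ _ := by gcongr

theorem lazy_one : (3 / 4 : ℝ≥0∞) ≤ lazySRW k 1 := by
  rw [lazy_apply]
  have h : 6 * k ≤ (Finset.univ.filter fun t => code k t = 1).card := by
    have h1 : ((Finset.univ.filter fun a : Fin 4 => a ≠ 0) ×ˢ
        (Finset.univ : Finset (Fin k × Bool))).card = 6 * k := by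
      rw [Finset.card_product]
      have : (Finset.univ.filter fun a : Fin 4 => a ≠ 0).card = 3 := by decide
      rw [this, Finset.card_univ, Fintype.card_prod, Fintype.card_fin, Fintype.card_bool]
      ring
    rw [← h1]
    refine Finset.card_le_card fun t ht => ?_
    rw [Finset.mem_product, Finset.mem_filter] at ht
    rw [Finset.mem_filter]
    exact ⟨Finset.mem_univ _, by simp [code, ht.1.2]⟩
  have hk : (k : ℝ≥0∞) ≠ 0 := by simpa using NeZero.ne k
  calc (3 / 4 : ℝ≥0∞) = ((6 * k : ℕ) : ℝ≥0∞) * ((8 * k : ℕ) : ℝ≥0∞)⁻¹ := by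
        push_cast
        rw [ENNReal.mul_inv (Or.inl (by norm_num)) (Or.inl (by norm_num)), mul_mul_mul_comm,
          ENNReal.mul_inv_cancel hk (ENNReal.natCast_ne_top k), mul_one]
        rw [show (6 : ℝ≥0∞) = 3 * 2 by norm_num, show (8 : ℝ≥0∞) = 4 * 2 by norm_num,
          ENNReal.mul_inv (Or.inl (by norm_num)) (Or.inl (by norm_num)), mul_mul_mul_comm,
          ENNReal.mul_inv_cancel (by norm_num) (by norm_num), mul_one, ENNReal.div_eq_inv_mul,
          mul_comm]
    _ ≤ _ := by gcongr

/-- support of the convolution powers -/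
theorem convPow_eq_zero (n : ℕ) {g : FreeGroup (Fin k)} (hg : g ∉ S k ^ n) :
    convPow (lazySRW k) n g = 0 := by
  induction n generalizing g with
  | zero =>
    rw [convPow, PMF.pure_apply_of_ne]
    simpa using hg
  | succ n ih =>
    by_contra h
    have h' := (PMF.mem_support_iff _ _).2 h
    rw [convPow, PMF.mem_support_bind_iff] at h'
    obtain ⟨x, hx, h'⟩ := h'
    rw [PMF.support_map] at h'
    obtain ⟨s, hs, rfl⟩ := h'
    apply hg
    rw [pow_succ]
    refine Finset.mul_mem_mul ?_ ?_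
    · by_contra h'
      exact (PMF.mem_support_iff _ _).1 hx (ih h')
    · by_contra h'
      exact (PMF.mem_support_iff _ _).1 hs (lazy_eq_zero k h')

/-- the mass of a positive word -/
theorem convPow_word (w : List (Fin k)) :
    ((8 * k : ℕ) : ℝ≥0∞)⁻¹ ^ w.length ≤
      convPow (lazySRW k) w.length (w.map FreeGroup.of).prod := by
  induction w using List.reverseRecOn with
  | nil => simp [convPow]
  | append_singleton w i ih =>
    rw [List.length_append, List.length_singleton, pow_succ, convPow, PMF.bind_apply]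
    refine le_trans ?_ (ENNReal.le_tsum (w.map FreeGroup.of).prod)
    refine mul_le_mul' ih ?_
    rw [PMF.map_apply]
    refine le_trans ?_ (ENNReal.le_tsum (FreeGroup.of i))
    rw [if_pos (by simp)]
    exact lazy_of k i

omit [NeZero k] in
theorem word_injective (n : ℕ) : Function.Injective fun w : List.Vector (Fin k) n =>
    (w.toList.map FreeGroup.of).prod := by
  have h1 : ∀ w : List (Fin k), (w.map FreeGroup.of).prod = FreeGroup.mk (w.map fun i => (i, true)) := by
    intro w
    induction w with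
    | nil => rfl
    | cons i w ih =>
      rw [List.map_cons, List.prod_cons, ih, List.map_cons, FreeGroup.of, FreeGroup.mul_mk]
      rfl
  have h2 : ∀ w : List (Fin k), FreeGroup.IsReduced (w.map fun i => (i, true)) := by
    intro w
    induction w with
    | nil => exact FreeGroup.IsReduced.nil
    | cons i w ih =>
      cases w with
      | nil => exact FreeGroup.IsReduced.singleton
      | cons j w => exact FreeGroup.isReduced_cons_cons.2 ⟨fun _ => rfl, ih⟩
  intro w w' h
  simp only [h1] at h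
  have h3 := congrArg FreeGroup.toWord h
  rw [FreeGroup.toWord_mk, FreeGroup.toWord_mk, (h2 _).reduce_eq, (h2 _).reduce_eq] at h3
  apply List.Vector.toList_injective
  have h4 := congrArg (List.map Prod.fst) h3
  simpa [List.map_map, Function.comp_def] using h4

/-- lower bound for the Rényi entropy of the convolution powers -/
theorem renyi_convPow (α : ℝ) (h0 : 0 ≤ α) (h1 : α < 1) (n : ℕ) :
    (Real.log k - α / (1 - α) * Real.log 8) * n ≤
      renyi α fun g => (convPow (lazySRW k) n g).toReal := by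
  set ν : FreeGroup (Fin k) → ℝ := fun g => (convPow (lazySRW k) n g).toReal with hν
  have hk : (0 : ℝ) < k := by exact_mod_cast Nat.pos_of_ne_zero (NeZero.ne k)
  have h1' : 0 < 1 - α := by linarith
  set F : FreeGroup (Fin k) → ℝ := fun g => if 0 < ν g then ν g ^ α else 0 with hF
  have hF0 : ∀ g, 0 ≤ F g := by
    intro g
    simp only [hF]
    split_ifs with h
    · exact Real.rpow_nonneg h.le _
    · exact le_rfl
  have hsupp : ∀ g ∉ S k ^ n, F g = 0 := by
    intro g hg
    simp only [hF, hν, convPow_eq_zero k n hg]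
    simp
  have hsum : Summable F := summable_of_ne_finset_zero (s := S k ^ n) hsupp
  let W : List.Vector (Fin k) n → FreeGroup (Fin k) := fun w => (w.toList.map FreeGroup.of).prod
  have hWν : ∀ w, (1 / (8 * k : ℝ)) ^ n ≤ ν (W w) := by
    intro w
    have h := convPow_word k w.toList
    rw [List.Vector.toList_length] at h
    have h2 := ENNReal.toReal_mono (PMF.apply_ne_top _ _) h
    rw [ENNReal.toReal_pow, ENNReal.toReal_inv, ENNReal.toReal_natCast] at h2
    rw [one_div]
    push_cast at h2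
    exact h2
  have hWF : ∀ w, ((1 / (8 * k : ℝ)) ^ n) ^ α ≤ F (W w) := by
    intro w
    have h3 : (0 : ℝ) < (1 / (8 * k : ℝ)) ^ n := by positivity
    simp only [hF]
    rw [if_pos (h3.trans_le (hWν w))]
    exact Real.rpow_le_rpow h3.le (hWν w) h0
  have hlow : (k : ℝ) ^ n * ((1 / (8 * k : ℝ)) ^ n) ^ α ≤ ∑' g, F g := by
    calc (k : ℝ) ^ n * ((1 / (8 * k : ℝ)) ^ n) ^ α
        = ∑ w : List.Vector (Fin k) n, ((1 / (8 * k : ℝ)) ^ n) ^ α := by
          rw [Finset.sum_const, Finset.card_univ, card_vector, Fintype.card_fin, nsmul_eq_mul]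
          push_cast
          rfl
      _ ≤ ∑ w : List.Vector (Fin k) n, F (W w) := Finset.sum_le_sum fun w _ => hWF w
      _ = ∑ g ∈ Finset.univ.image W, F g := by
          rw [Finset.sum_image fun a _ b _ h => word_injective k n h]
      _ ≤ ∑' g, F g := hsum.sum_le_tsum _ fun g _ => hF0 g
  have hpos : (0 : ℝ) < (k : ℝ) ^ n * ((1 / (8 * k : ℝ)) ^ n) ^ α := by positivity
  have hlog := Real.log_le_log hpos hlow
  rw [Real.log_mul (by positivity) (by positivity), Real.log_rpow (by positivity), Real.log_pow,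
    Real.log_pow, one_div, Real.log_inv, Real.log_mul (by norm_num) hk.ne'] at hlog
  unfold renyi
  calc (Real.log k - α / (1 - α) * Real.log 8) * n
      = (1 - α)⁻¹ * (n * Real.log k + α * (n * -(Real.log 8 + Real.log k))) := by
        field_simp
        ring
    _ ≤ _ := mul_le_mul_of_nonneg_left hlog (by positivity)

end Walk

/-! ### The support of the empirical distribution -/

/-- the nonempty final segments of a vertex -/
def sfx : List ℕ → Finset (List ℕ)
  | [] => ∅
  | i :: v => insert (i :: v) (sfx v)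

theorem length_le_of_mem_sfx {u v : List ℕ} (h : u ∈ sfx v) : u.length ≤ v.length := by
  induction v with
  | nil => simp [sfx] at h
  | cons i v ih =>
    rw [sfx, Finset.mem_insert] at h
    rcases h with rfl | h
    · exact le_rfl
    · exact (ih h).trans (by simp)

theorem notMem_sfx (i : ℕ) (v : List ℕ) : i :: v ∉ sfx v := by
  intro h
  have := length_le_of_mem_sfx h
  simp at this

theorem card_sfx (v : List ℕ) : (sfx v).card = v.length := by
  induction v with
  | nil => rfl
  | cons i v ih => rw [sfx, Finset.card_insert_of_notMem (notMem_sfx i v), ih, List.length_cons]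

theorem length_of_mem_gen {N : List ℕ → ℕ} {n : ℕ} {v : List ℕ} (h : v ∈ gen N n) :
    v.length = n := by
  induction n generalizing v with
  | zero => rw [gen, Finset.mem_singleton] at h; rw [h]; rfl
  | succ n ih =>
    rw [gen, Finset.mem_biUnion] at h
    obtain ⟨u, hu, h⟩ := h
    rw [Finset.mem_image] at h
    obtain ⟨i, -, rfl⟩ := h
    rw [List.length_cons, ih hu]

theorem card_gen (m n : ℕ) : (gen (fun _ => m) n).card = m ^ n := by
  induction n with
  | zero => rfl
  | succ n ih =>
    rw [gen, Finset.card_biUnion]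
    · have : ∀ v ∈ gen (fun _ => m) n,
          ((Finset.range m).image fun i => i :: v).card = m := by
        intro v _
        rw [Finset.card_image_of_injective _ fun a b h => (List.cons.inj h).1, Finset.card_range]
      rw [Finset.sum_congr rfl this, Finset.sum_const, ih, smul_eq_mul, pow_succ]
    · intro u _ v _ huv
      rw [Function.onFun, Finset.disjoint_left]
      intro w hw hw'
      rw [Finset.mem_image] at hw hw'
      obtain ⟨i, -, rfl⟩ := hw
      obtain ⟨j, -, h⟩ := hw'
      exact huv (List.cons.inj h).2.symm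

theorem gen_congr {N N' : List ℕ → ℕ} (h : ∀ v, N v = N' v) (n : ℕ) : gen N n = gen N' n := by
  have : N = N' := funext h
  rw [this]

/-- position of a vertex with `c` non-trivial steps -/
theorem pos_mem {k : ℕ} {ζ : List ℕ → FreeGroup (Fin k)} (hζ : ∀ v, ζ v ∈ S k) (v : List ℕ) :
    pos ζ v ∈ S k ^ ((sfx v).filter fun u => ζ u ≠ 1).card := by
  induction v with
  | nil => simp [pos, sfx]
  | cons i v ih =>
    rw [pos, sfx, Finset.filter_insert]
    split_ifs with h
    · rw [Finset.card_insert_of_notMem (fun h' => notMem_sfx i v (Finset.mem_filter.1 h').1),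
        pow_succ]
      exact Finset.mul_mem_mul ih (hζ _)
    · rw [not_not] at h
      rw [h, mul_one]
      exact ih

/-- a mass function with support of size at most `A` has Rényi entropy at most `log A` -/
theorem renyi_le {G : Type*} (α : ℝ) (h0 : 0 ≤ α) (h1 : α < 1) (ν : G → ℝ) (T : Finset G)
    (hT : ∀ g ∉ T, ν g = 0) (hν0 : ∀ g, 0 ≤ ν g) (hν : ∑ g ∈ T, ν g = 1) :
    renyi α ν ≤ Real.log T.card := by
  have h1' : 0 < 1 - α := by linarith
  set T' := T.filter fun g => 0 < ν g with hT'
  have hsum' : ∑ g ∈ T', ν g = 1 := by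
    rw [← hν, hT', Finset.sum_filter]
    refine Finset.sum_congr rfl fun g _ => ?_
    split_ifs with h
    · rfl
    · exact le_antisymm (hν0 g) (not_lt.1 h)
  have hne : T'.Nonempty := by
    by_contra h
    rw [Finset.not_nonempty_iff_eq_empty] at h
    rw [h, Finset.sum_empty] at hsum'
    exact zero_ne_one hsum'
  have hcard : (0 : ℝ) < T'.card := by exact_mod_cast hne.card_pos
  have hF : (∑' g, if 0 < ν g then ν g ^ α else 0) = ∑ g ∈ T', ν g ^ α := by
    rw [tsum_eq_sum (s := T), hT', Finset.sum_filter]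
    intro g hg
    rw [hT g hg]
    simp
  have hjensen : ∑ g ∈ T', ν g ^ α ≤ (T'.card : ℝ) ^ (1 - α) := by
    have hc := (Real.concaveOn_rpow h0 h1.le).le_map_sum (t := T')
      (w := fun _ => (T'.card : ℝ)⁻¹) (p := ν) (fun _ _ => by positivity)
      (by rw [Finset.sum_const, nsmul_eq_mul, mul_inv_cancel₀ hcard.ne']) (fun g _ => hν0 g)
    simp only [smul_eq_mul] at hc
    rw [← Finset.mul_sum, ← Finset.mul_sum, hsum', mul_one, Real.inv_rpow hcard.le] at hc
    rw [Real.rpow_sub hcard, Real.rpow_one]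
    rw [inv_mul_le_iff₀ hcard] at hc
    exact hc
  have hpos : 0 < ∑ g ∈ T', ν g ^ α :=
    Finset.sum_pos (fun g hg => Real.rpow_pos_of_pos (Finset.mem_filter.1 hg).2 _) hne
  have hlog := Real.log_le_log hpos hjensen
  rw [Real.log_rpow hcard] at hlog
  unfold renyi
  rw [hF]
  calc (1 - α)⁻¹ * Real.log (∑ g ∈ T', ν g ^ α)
      ≤ (1 - α)⁻¹ * ((1 - α) * Real.log T'.card) := by gcongr
    _ = Real.log T'.card := by rw [← mul_assoc, inv_mul_cancel₀ h1'.ne', one_mul]
    _ ≤ Real.log T.card := Real.log_le_log hcard (by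
        exact_mod_cast Finset.card_le_card (Finset.filter_subset _ _))

theorem empirical_eq_zero {G : Type*} [Group G] (N : List ℕ → ℕ) (ζ : List ℕ → G) (n : ℕ)
    (T : Finset G) (hmaps : ∀ v ∈ gen N n, pos ζ v ∈ T) (g : G) (hg : g ∉ T) :
    empirical N ζ n g = 0 := by
  unfold empirical
  rw [Finset.filter_eq_empty_iff.2, Finset.card_empty, Nat.cast_zero, zero_div]
  rintro v hvn rfl
  exact hg (hmaps v hvn)

theorem empirical_sum {G : Type*} [Group G] (N : List ℕ → ℕ) (ζ : List ℕ → G) (n : ℕ)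
    (T : Finset G) (hmaps : ∀ v ∈ gen N n, pos ζ v ∈ T) (hgpos : 0 < (gen N n).card) :
    ∑ g ∈ T, empirical N ζ n g = 1 := by
  unfold empirical
  rw [← Finset.sum_div, ← Nat.cast_sum, ← Finset.card_eq_sum_card_fiberwise hmaps,
    div_self (by exact_mod_cast hgpos.ne')]

/-! ### The branching random walk -/

section BRW

variable {k : ℕ} [NeZero k] {m : ℕ} {Ω : Type*} [MeasurableSpace Ω] {P : Measure Ω}
  [IsProbabilityMeasure P] {N : List ℕ → Ω → ℕ} {ζ : List ℕ → Ω → FreeGroup (Fin k)}

omit [IsProbabilityMeasure P] in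
theorem ae_values (hB : IsBRW (lazySRW k) (PMF.pure m) P N ζ) :
    ∀ᵐ ω ∂P, ∀ v, N v ω = m ∧ ζ v ω ∈ S k := by
  have hc : Countable (FreeGroup (Fin k)) :=
    Function.Injective.countable FreeGroup.toWord_injective
  rw [ae_all_iff]
  intro v
  have h1 : ∀ᵐ ω ∂P, ∀ a : ℕ, ∀ g : FreeGroup (Fin k), ¬ (a = m ∧ g ∈ S k) →
      ¬ (N v ω = a ∧ ζ v ω = g) := by
    rw [ae_all_iff]
    intro a
    rw [ae_all_iff]
    intro g
    by_cases h : a = m ∧ g ∈ S k
    · exact Eventually.of_forall fun ω h' => absurd h h'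
    · have h0 : P {ω | N v ω = a ∧ ζ v ω = g} = 0 := by
        rw [hB.law]
        by_cases ha : a = m
        · rw [lazy_eq_zero k fun hg => h ⟨ha, hg⟩, mul_zero]
        · rw [PMF.pure_apply_of_ne _ _ ha, zero_mul]
      filter_upwards [measure_eq_zero_iff_ae_notMem.1 h0] with ω hω _
      exact hω
  filter_upwards [h1] with ω hω
  by_contra h
  exact hω _ _ h ⟨rfl, rfl⟩

/-- the weight of a step -/
def wt {k : ℕ} (g : FreeGroup (Fin k)) : ℝ≥0∞ := if g = 1 then 1 else 4

omit [IsProbabilityMeasure P] in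
theorem meas_of_top (hB : IsBRW (lazySRW k) (PMF.pure m) P N ζ) (v : List ℕ) {β : Type*}
    [MeasurableSpace β] (f : ℕ × FreeGroup (Fin k) → β) :
    Measurable fun ω => f (N v ω, ζ v ω) := by
  have h : Measurable[⊤] f := measurable_from_top
  exact h.comp (hB.meas v)

theorem lintegral_wt (hB : IsBRW (lazySRW k) (PMF.pure m) P N ζ) (v : List ℕ) :
    ∫⁻ ω, wt (ζ v ω) ∂P ≤ 7 / 4 := by
  set A : Set Ω := {ω | N v ω = m ∧ ζ v ω = 1} with hA
  have hAm : MeasurableSet A := by
    have h := meas_of_top hB v (fun p => (p.1 = m ∧ p.2 = 1 : Prop))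
    exact measurableSet_setOfPred.2 h
  have hPA : (3 / 4 : ℝ≥0∞) ≤ P A := by
    rw [hA, hB.law, PMF.pure_apply_self, one_mul]
    exact lazy_one k
  have hPAc : P Aᶜ ≤ 1 / 4 := by
    rw [prob_compl_eq_one_sub hAm]
    refine tsub_le_iff_right.2 ?_
    calc (1 : ℝ≥0∞) = 1 / 4 + 3 / 4 := by
          rw [ENNReal.div_add_div_same, show (1 : ℝ≥0∞) + 3 = 4 by norm_num,
            ENNReal.div_self (by norm_num) (by norm_num)]
      _ ≤ _ := by gcongr
  calc ∫⁻ ω, wt (ζ v ω) ∂P ≤ ∫⁻ ω, (1 + Aᶜ.indicator (fun _ => 3) ω) ∂P := by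
        refine lintegral_mono fun ω => ?_
        by_cases h : ω ∈ A
        · have h1 : ζ v ω = 1 := h.2
          simp only [wt, h1, if_true]
          exact le_self_add
        · rw [Set.indicator_of_mem (show ω ∈ Aᶜ from h)]
          unfold wt
          split_ifs
          · exact le_self_add
          · norm_num
    _ = 1 + 3 * P Aᶜ := by
        rw [lintegral_add_left measurable_const, lintegral_const, measure_univ, mul_one,
          lintegral_indicator hAm.compl, setLIntegral_const]
    _ ≤ 1 + 3 * (1 / 4) := by gcongr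
    _ = 7 / 4 := by
        rw [mul_one_div, show (1 : ℝ≥0∞) = 4 / 4 from
          (ENNReal.div_self (by norm_num) (by norm_num)).symm, ENNReal.div_add_div_same]
        norm_num

theorem lintegral_prod_wt (hB : IsBRW (lazySRW k) (PMF.pure m) P N ζ) (s : Finset (List ℕ)) :
    ∫⁻ ω, ∏ u ∈ s, wt (ζ u ω) ∂P ≤ (7 / 4) ^ s.card := by
  have hind : iIndepFun (fun u ω => wt (ζ u ω)) P := by
    have := hB.indep.comp (mγ := fun _ => inferInstance) (fun _ p => wt p.2)
      (fun _ => measurable_from_top)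
    exact this
  rw [lintegral_prod_eq_prod_lintegral_of_indepFun s _ hind
    (fun u => meas_of_top hB u fun p => wt p.2)]
  calc ∏ i ∈ s, ∫⁻ ω, wt (ζ i ω) ∂P ≤ ∏ i ∈ s, (7 / 4 : ℝ≥0∞) :=
        Finset.prod_le_prod' fun i _ => lintegral_wt hB i
    _ = (7 / 4) ^ s.card := by rw [Finset.prod_const]

/-- many non-trivial steps are unlikely -/
theorem prob_bad (hB : IsBRW (lazySRW k) (PMF.pure m) P N ζ) (v : List ℕ) :
    P {ω | v.length < 2 * ((sfx v).filter fun u => ζ u ω ≠ 1).card} ≤ (7 / 8) ^ v.length := by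
  have h1 : ∀ ω, ∏ u ∈ sfx v, wt (ζ u ω) = 4 ^ ((sfx v).filter fun u => ζ u ω ≠ 1).card := by
    intro ω
    unfold wt
    rw [Finset.prod_ite, Finset.prod_const_one, one_mul, Finset.prod_const]
  have hm : Measurable fun ω => ∏ u ∈ sfx v, wt (ζ u ω) :=
    Finset.measurable_prod _ fun u _ => meas_of_top hB u fun p => wt p.2
  calc P {ω | v.length < 2 * ((sfx v).filter fun u => ζ u ω ≠ 1).card}
      ≤ P {ω | (2 : ℝ≥0∞) ^ v.length ≤ ∏ u ∈ sfx v, wt (ζ u ω)} := by
        refine measure_mono fun ω hω => ?_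
        have hω' : v.length < 2 * ((sfx v).filter fun u => ζ u ω ≠ 1).card := hω
        show (2 : ℝ≥0∞) ^ v.length ≤ ∏ u ∈ sfx v, wt (ζ u ω)
        rw [h1, show (4 : ℝ≥0∞) = 2 ^ 2 by norm_num, ← pow_mul]
        exact pow_le_pow_right₀ (by norm_num) hω'.le
    _ ≤ (∫⁻ ω, ∏ u ∈ sfx v, wt (ζ u ω) ∂P) / 2 ^ v.length :=
        meas_ge_le_lintegral_div hm.aemeasurable (by simp) (by simp)
    _ ≤ (7 / 4) ^ v.length / 2 ^ v.length := by
        gcongr
        have := lintegral_prod_wt hB (sfx v)
        rwa [card_sfx] at this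
    _ = (7 / 8) ^ v.length := by
        rw [ENNReal.div_eq_inv_mul, ENNReal.inv_pow, ← mul_pow]
        congr 1
        rw [ENNReal.div_eq_inv_mul, ENNReal.div_eq_inv_mul, ← mul_assoc,
          ← ENNReal.mul_inv (Or.inl (by norm_num)) (Or.inl (by norm_num))]
        norm_num

theorem expected_bad (hB : IsBRW (lazySRW k) (PMF.pure m) P N ζ) (n : ℕ) :
    ∫⁻ ω, (((gen (fun _ => m) n).filter fun v =>
      n < 2 * ((sfx v).filter fun u => ζ u ω ≠ 1).card).card : ℝ≥0∞) ∂P ≤ (m * (7 / 8)) ^ n := by
  have hms : ∀ v, MeasurableSet {ω | n < 2 * ((sfx v).filter fun u => ζ u ω ≠ 1).card} := by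
    intro v
    have : Measurable fun ω => ((sfx v).filter fun u => ζ u ω ≠ 1).card := by
      have e : (fun ω => ((sfx v).filter fun u => ζ u ω ≠ 1).card) =
          fun ω => ∑ u ∈ sfx v, if ζ u ω ≠ 1 then 1 else 0 := by
        funext ω
        rw [Finset.card_filter]
      rw [e]
      exact Finset.measurable_sum _ fun u _ => meas_of_top hB u fun p => if p.2 ≠ 1 then 1 else 0
    exact measurableSet_lt measurable_const (measurable_const.mul this)
  calc ∫⁻ ω, (((gen (fun _ => m) n).filter fun v =>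
      n < 2 * ((sfx v).filter fun u => ζ u ω ≠ 1).card).card : ℝ≥0∞) ∂P
      = ∫⁻ ω, ∑ v ∈ gen (fun _ => m) n,
          {ω | n < 2 * ((sfx v).filter fun u => ζ u ω ≠ 1).card}.indicator (fun _ => 1) ω ∂P := by
        refine lintegral_congr fun ω => ?_
        rw [Finset.card_filter]
        push_cast
        refine Finset.sum_congr rfl fun v _ => ?_
        simp only [Set.indicator, Set.mem_ofPred_eq]
    _ = ∑ v ∈ gen (fun _ => m) n, P {ω | n < 2 * ((sfx v).filter fun u => ζ u ω ≠ 1).card} := by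
        rw [lintegral_finsetSum _ fun v _ => measurable_const.indicator (hms v)]
        refine Finset.sum_congr rfl fun v _ => ?_
        rw [lintegral_indicator (hms v), setLIntegral_const, one_mul]
    _ ≤ ∑ v ∈ gen (fun _ => m) n, (7 / 8) ^ n := by
        refine Finset.sum_le_sum fun v hv => ?_
        have := prob_bad hB v
        rwa [length_of_mem_gen hv] at this
    _ = (m * (7 / 8)) ^ n := by
        rw [Finset.sum_const, card_gen, nsmul_eq_mul, mul_pow]
        push_cast
        rfl

theorem ae_rare (hB : IsBRW (lazySRW k) (PMF.pure m) P N ζ) (hm : 0 < m) :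
    ∀ᵐ ω ∂P, ∀ᶠ n in atTop, (((gen (fun _ => m) n).filter fun v =>
      n < 2 * ((sfx v).filter fun u => ζ u ω ≠ 1).card).card : ℝ≥0∞) < (m * (15 / 16)) ^ n := by
  set B : ℕ → Ω → ℝ≥0∞ := fun n ω => (((gen (fun _ => m) n).filter fun v =>
      n < 2 * ((sfx v).filter fun u => ζ u ω ≠ 1).card).card : ℝ≥0∞) with hBdef
  have hBm : ∀ n, Measurable (B n) := by
    intro n
    have e : B n = fun ω => ∑ v ∈ gen (fun _ => m) n,
        if n < 2 * (∑ u ∈ sfx v, if ζ u ω ≠ 1 then 1 else 0) then 1 else 0 := by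
      funext ω
      simp only [hBdef, Finset.card_filter]
      push_cast
      rfl
    rw [e]
    refine Finset.measurable_sum _ fun v _ => ?_
    refine Measurable.ite ?_ measurable_const measurable_const
    refine measurableSet_lt measurable_const (measurable_const.mul ?_)
    exact Finset.measurable_sum _ fun u _ => meas_of_top hB u fun p => if p.2 ≠ 1 then 1 else 0
  have hm0 : (m : ℝ≥0∞) ≠ 0 := by exact_mod_cast hm.ne'
  have hb : ∀ n, P {ω | (m * (15 / 16) : ℝ≥0∞) ^ n ≤ B n ω} ≤ (14 / 15) ^ n := by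
    intro n
    have h0 : ((m : ℝ≥0∞) * (15 / 16)) ^ n ≠ 0 :=
      pow_ne_zero _ (mul_ne_zero hm0 (by simp))
    have h1 : ((m : ℝ≥0∞) * (15 / 16)) ^ n ≠ ∞ :=
      ENNReal.pow_ne_top (ENNReal.mul_ne_top (ENNReal.natCast_ne_top m)
        (ENNReal.div_ne_top (by norm_num) (by norm_num)))
    refine (meas_ge_le_lintegral_div (hBm n).aemeasurable h0 h1).trans ?_
    refine (ENNReal.div_le_div_right (expected_bad hB n) _).trans ?_
    rw [ENNReal.div_le_iff h0 h1, ← mul_pow]
    refine pow_le_pow_left' ?_ n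
    rw [mul_left_comm]
    gcongr
    rw [← ENNReal.toReal_le_toReal (ENNReal.div_ne_top (by norm_num) (by norm_num))
      (ENNReal.mul_ne_top (ENNReal.div_ne_top (by norm_num) (by norm_num))
        (ENNReal.div_ne_top (by norm_num) (by norm_num)))]
    rw [ENNReal.toReal_mul, ENNReal.toReal_div, ENNReal.toReal_div, ENNReal.toReal_div]
    norm_num
  have hsum : ∑' n, P {ω | (m * (15 / 16) : ℝ≥0∞) ^ n ≤ B n ω} ≠ ∞ := by
    refine ne_top_of_le_ne_top ?_ (ENNReal.tsum_le_tsum hb)
    rw [ENNReal.tsum_geometric]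
    refine ENNReal.inv_ne_top.2 ?_
    rw [Ne, tsub_eq_zero_iff_le, not_le]
    rw [ENNReal.div_lt_iff (by norm_num) (by norm_num)]
    norm_num
  filter_upwards [ae_eventually_notMem hsum] with ω hω
  filter_upwards [hω] with n hn
  exact not_le.1 hn

end BRW

theorem main_bound {j : ℕ} [NeZero (j ^ 2)] (hj : 0 < j) {Ω : Type*} [MeasurableSpace Ω]
    {P : Measure Ω} [IsProbabilityMeasure P] {N : List ℕ → Ω → ℕ}
    {ζ : List ℕ → Ω → FreeGroup (Fin (j ^ 2))}
    (hB : IsBRW (lazySRW (j ^ 2)) (PMF.pure (2 * j)) P N ζ) (α : ℝ) (h0 : 0 ≤ α) (h1 : α < 1) :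
    ∀ᵐ ω ∂P, ∀ᶠ n : ℕ in atTop,
      renyi α (empirical (fun v => N v ω) (fun v => ζ v ω) n) ≤
        Real.log (31 / 16 * j) * n := by
  have hjr : (1 : ℝ) ≤ j := by exact_mod_cast hj
  -- a deterministic inequality for large `n`
  have hlarge : ∀ᶠ n : ℕ in atTop,
      Real.log 2 + n * Real.log (15 / 8 * j) ≤ Real.log (31 / 16 * j) * n := by
    have hgap : 0 < Real.log (31 / 30) := Real.log_pos (by norm_num)
    have hlog : Real.log (31 / 16 * j) = Real.log (31 / 30) + Real.log (15 / 8 * j) := by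
      rw [← Real.log_mul (by norm_num) (by positivity)]
      congr 1
      ring
    obtain ⟨n0, hn0⟩ := exists_nat_ge (Real.log 2 / Real.log (31 / 30))
    filter_upwards [eventually_ge_atTop n0] with n hn
    have h2 : Real.log 2 / Real.log (31 / 30) ≤ n := hn0.trans (by exact_mod_cast hn)
    rw [div_le_iff₀ hgap] at h2
    rw [hlog]
    nlinarith
  filter_upwards [ae_values hB, ae_rare hB (by omega)] with ω hv hr
  filter_upwards [hr, hlarge] with n hn hl
  set N' : List ℕ → ℕ := fun v => N v ω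
  set ζ' : List ℕ → FreeGroup (Fin (j ^ 2)) := fun v => ζ v ω
  have hgen : gen N' n = gen (fun _ => 2 * j) n := gen_congr (fun v => (hv v).1) n
  set bad := (gen (fun _ => 2 * j) n).filter fun v =>
      n < 2 * ((sfx v).filter fun u => ζ' u ≠ 1).card with hbad
  set T := S (j ^ 2) ^ (n / 2) ∪ bad.image (pos ζ') with hT
  have hmaps : ∀ v ∈ gen N' n, pos ζ' v ∈ T := by
    intro v hvn
    rw [hgen] at hvn
    rw [hT, Finset.mem_union]
    by_cases hb : v ∈ bad
    · exact Or.inr (Finset.mem_image_of_mem _ hb)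
    · left
      have h2 : ¬ n < 2 * ((sfx v).filter fun u => ζ' u ≠ 1).card := fun h =>
        hb (Finset.mem_filter.2 ⟨hvn, h⟩)
      refine Finset.pow_subset_pow_right (one_mem_S _) ?_
        (pos_mem (ζ := ζ') (fun v => (hv v).2) v)
      omega
  have hgpos : 0 < (gen N' n).card := by
    rw [hgen, card_gen]
    positivity
  have hle := renyi_le α h0 h1 (empirical N' ζ' n) T
    (fun g hg => empirical_eq_zero N' ζ' n T hmaps g hg)
    (fun g => by unfold empirical; positivity)
    (empirical_sum N' ζ' n T hmaps hgpos)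
  refine hle.trans (le_trans ?_ hl)
  -- the cardinality of `T`
  have hbr : (bad.card : ℝ) ≤ (15 / 8 * j) ^ n := by
    have h2 : (bad.card : ℝ≥0∞) ≤ (((2 * j : ℕ) : ℝ≥0∞) * (15 / 16)) ^ n := hn.le
    have h3 := ENNReal.toReal_mono (ENNReal.pow_ne_top (ENNReal.mul_ne_top
      (ENNReal.natCast_ne_top _) (ENNReal.div_ne_top (by norm_num) (by norm_num)))) h2
    rw [ENNReal.toReal_natCast, ENNReal.toReal_pow, ENNReal.toReal_mul, ENNReal.toReal_natCast,
      ENNReal.toReal_div] at h3
    refine h3.trans (le_of_eq ?_)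
    congr 1
    push_cast
    norm_num
    ring
  have hSr : ((S (j ^ 2) ^ (n / 2)).card : ℝ) ≤ (15 / 8 * j) ^ n := by
    have h2 : (S (j ^ 2) ^ (n / 2)).card ≤ (2 * j ^ 2 + 1) ^ (n / 2) :=
      Finset.card_pow_le.trans (Nat.pow_le_pow_left (card_S _) _)
    have h3 : ((S (j ^ 2) ^ (n / 2)).card : ℝ) ≤ (2 * (j : ℝ) ^ 2 + 1) ^ (n / 2) := by
      exact_mod_cast h2
    calc ((S (j ^ 2) ^ (n / 2)).card : ℝ) ≤ (2 * (j : ℝ) ^ 2 + 1) ^ (n / 2) := h3
      _ ≤ ((15 / 8 * (j : ℝ)) ^ 2) ^ (n / 2) := by
          refine pow_le_pow_left₀ (by positivity) ?_ _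
          nlinarith
      _ = (15 / 8 * (j : ℝ)) ^ (2 * (n / 2)) := by rw [← pow_mul]
      _ ≤ (15 / 8 * (j : ℝ)) ^ n := pow_le_pow_right₀ (by linarith) (by omega)
  have hcard : (T.card : ℝ) ≤ 2 * (15 / 8 * j) ^ n := by
    have h2 : T.card ≤ (S (j ^ 2) ^ (n / 2)).card + bad.card :=
      (Finset.card_union_le _ _).trans (Nat.add_le_add_left Finset.card_image_le _)
    have h3 : (T.card : ℝ) ≤ (S (j ^ 2) ^ (n / 2)).card + bad.card := by exact_mod_cast h2
    linarith
  have hTpos : (0 : ℝ) < T.card := by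
    obtain ⟨v, hvn⟩ := Finset.card_pos.1 hgpos
    exact_mod_cast Finset.card_pos.2 ⟨_, hmaps v hvn⟩
  calc Real.log T.card ≤ Real.log (2 * (15 / 8 * j) ^ n) := Real.log_le_log hTpos hcard
    _ = Real.log 2 + n * Real.log (15 / 8 * j) := by
        rw [Real.log_mul (by norm_num) (by positivity), Real.log_pow]

/-! ### Existence of the branching random walk -/

theorem exists_BRW {G : Type} (μ : PMF G) (m : ℕ) :
    ∃ (Ω : Type) (_ : MeasurableSpace Ω) (P : Measure Ω) (_ : IsProbabilityMeasure P)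
      (N : List ℕ → Ω → ℕ) (ζ : List ℕ → Ω → G), IsBRW μ (PMF.pure m) P N ζ := by
  let mX : MeasurableSpace (ℕ × G) := ⊤
  let ρ : PMF (ℕ × G) := μ.map fun g => (m, g)
  let P : Measure (List ℕ → ℕ × G) := Measure.infinitePi fun _ => ρ.toMeasure
  refine ⟨List ℕ → ℕ × G, MeasurableSpace.pi, P, inferInstance, fun v ω => (ω v).1,
    fun v ω => (ω v).2, ?_, ?_, ?_⟩
  · intro v
    exact measurable_pi_apply v
  · intro v a g
    have h1 : {ω : List ℕ → ℕ × G | (ω v).1 = a ∧ (ω v).2 = g} =
        (fun ω : List ℕ → ℕ × G => ω v) ⁻¹' ({(a, g)} : Set (ℕ × G)) := by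
      ext ω
      rw [Set.mem_preimage, Set.mem_singleton_iff, Prod.ext_iff]
      rfl
    have h2 : MeasurableSet ({(a, g)} : Set (ℕ × G)) := MeasurableSpace.measurableSet_top
    rw [h1]
    have h3 := (measurePreserving_eval_infinitePi (fun _ : List ℕ => ρ.toMeasure)
      v).measure_preimage h2.nullMeasurableSet
    refine h3.trans ?_
    rw [PMF.toMeasure_apply_singleton _ _ h2, PMF.map_apply]
    by_cases ha : a = m
    · subst ha
      rw [PMF.pure_apply_self, one_mul, tsum_eq_single g]
      · simp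
      · intro g' hg'
        rw [if_neg]
        intro h
        exact hg' (Prod.ext_iff.1 h).2.symm
    · rw [PMF.pure_apply_of_ne _ _ ha, zero_mul]
      refine ENNReal.tsum_eq_zero.2 fun g' => ?_
      rw [if_neg]
      intro h
      exact ha (Prod.ext_iff.1 h).1
  · exact iIndepFun_infinitePi (P := fun _ : List ℕ => ρ.toMeasure)
      (X := fun _ x => x) fun _ => measurable_id

/-- **Theorem.** For every `α ∈ [0, 1)` there are a lazy simple random walk on a free group and a
deterministic offspring number `m ≥ 2` such that `m < exp (h (α, μ))` but the Rényi entropies of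
the empirical distributions have, almost surely, upper growth rate less than `log m`. -/
theorem result (α : ℝ) (h0 : 0 ≤ α) (h1 : α < 1) :
    ∃ (j : ℕ) (_ : NeZero (j ^ 2)), 0 < j ∧
      (∃ c, Real.log ((2 * j : ℕ) : ℝ) < c ∧ ∀ n : ℕ,
        c * n ≤ renyi α fun g => (convPow (lazySRW (j ^ 2)) n g).toReal) ∧
      (∃ (Ω : Type) (_ : MeasurableSpace Ω) (P : Measure Ω) (_ : IsProbabilityMeasure P)
        (N : List ℕ → Ω → ℕ) (ζ : List ℕ → Ω → FreeGroup (Fin (j ^ 2))),
        IsBRW (lazySRW (j ^ 2)) (PMF.pure (2 * j)) P N ζ) ∧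
      ∃ c, c < Real.log ((2 * j : ℕ) : ℝ) ∧
        ∀ (Ω : Type) [MeasurableSpace Ω] (P : Measure Ω) [IsProbabilityMeasure P]
          (N : List ℕ → Ω → ℕ) (ζ : List ℕ → Ω → FreeGroup (Fin (j ^ 2))),
          IsBRW (lazySRW (j ^ 2)) (PMF.pure (2 * j)) P N ζ →
          ∀ᵐ ω ∂P, ∀ᶠ n : ℕ in atTop,
            renyi α (empirical (fun v => N v ω) (fun v => ζ v ω) n) ≤ c * n := by
  obtain ⟨j, hj⟩ := exists_nat_gt (max 1 (Real.exp (Real.log 2 + α / (1 - α) * Real.log 8)))
  have hj1 : (1 : ℝ) < j := (le_max_left _ _).trans_lt hj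
  have hj2 : Real.exp (Real.log 2 + α / (1 - α) * Real.log 8) < j := (le_max_right _ _).trans_lt hj
  have hj0 : 0 < j := by
    have : (0 : ℝ) < j := by linarith
    exact_mod_cast this
  have hne : NeZero (j ^ 2) := ⟨by positivity⟩
  have hlj : Real.log 2 + α / (1 - α) * Real.log 8 < Real.log j := by
    rw [Real.lt_log_iff_exp_lt (by linarith)]
    exact hj2
  refine ⟨j, hne, hj0, ⟨_, ?_, fun n => renyi_convPow (j ^ 2) α h0 h1 n⟩, exists_BRW _ _,
    Real.log (31 / 16 * j), ?_, ?_⟩
  · push_cast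
    rw [Real.log_mul (by norm_num) (by linarith), Real.log_pow]
    push_cast
    linarith
  · push_cast
    refine Real.log_lt_log (by linarith) (by linarith)
  · intro Ω _ P _ N ζ hB
    exact main_bound hj0 hB α h0 h1

end

end Pool.Agent.Results.MP_96db20_pr.RenyiFails
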